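import Pool.Agent.MWNP.Stmts

/-!
# Squad MWNP (MP_23468a_al), row PDD: the identity `D 0` and the period in words
-/

set_option autoImplicit false

namespace Pool.Agent.MWNP.H19

open Pool.Agent.Helper14_MV Pool.Agent.Helper2_MV Pool.Agent.MVO Pool.Agent.MWL Pool.Agent.MWS
  Pool.Agent.MWF Pool.Agent.MWN Pool.Agent.MWNP

theorem flatMap_rep (f : ℕ → List ℕ) (c : ℕ) (hf : f 0 = [c]) (k : ℕ) :
    (List.replicate k 0).flatMap f = List.replicate k c := by
  induction k with
  | zero => rfl
  | succ k ih =>
    rw [List.replicate_succ, List.flatMap_cons, ih, hf, List.replicate_succ]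
    rfl

theorem rep_step {n : ℕ} {β : FIC} (hβ : HBP n β) (c i : ℕ) (hi : 2 ≤ i) :
    RR β (List.replicate i c) (List.replicate (i + n) c) := by
  have h1 := hβ.ap.sub (fun _ => [c])
  have e0 : ([0, 0] : List ℕ).flatMap (fun _ => [c]) = List.replicate 2 c := rfl
  rw [e0, flatMap_rep _ c rfl] at h1
  have h2 := h1.append (RR.refl (List.replicate (i - 2) c))
  rw [List.replicate_append_replicate, List.replicate_append_replicate] at h2
  have e1 : 2 + (i - 2) = i := by omega
  have e2 : n + 2 + (i - 2) = i + n := by omega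
  rw [e1, e2] at h2
  exact h2

theorem rep_mul {n : ℕ} {β : FIC} (hβ : HBP n β) (c i : ℕ) (hi : 2 ≤ i) (m : ℕ) :
    RR β (List.replicate i c) (List.replicate (i + m * n) c) := by
  induction m with
  | zero =>
    rw [Nat.zero_mul, Nat.add_zero]
    exact RR.refl _
  | succ m ih =>
    have h := rep_step hβ c (i + m * n) (by omega)
    have e : i + m * n + n = i + (m + 1) * n := by ring
    rw [e] at h
    exact β.trans ih h

theorem rep_mod {n : ℕ} {β : FIC} (hβ : HBP n β) (c i j : ℕ) (hi : 2 ≤ i) (hj : 2 ≤ j)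
    (hij : i ≡ j [MOD n]) : RR β (List.replicate i c) (List.replicate j c) := by
  rcases le_total i j with h | h
  · obtain ⟨m, hm⟩ := (Nat.modEq_iff_dvd' h).1 hij
    have e : j = i + m * n := by
      rw [Nat.mul_comm m n, ← hm]
      omega
    rw [e]
    exact rep_mul hβ c i hi m
  · obtain ⟨m, hm⟩ := (Nat.modEq_iff_dvd' h).1 hij.symm
    have e : i = j + m * n := by
      rw [Nat.mul_comm m n, ← hm]
      omega
    rw [e]
    exact (rep_mul hβ c j hj m).symm

/-- **PDD** -/
theorem pdd : PddStmt := by
  intro n β hβ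
  constructor
  · intro hD p w q c
    have h1 : RR β [0, 2, 0, 0] (List.replicate (1 + 2 * n) 0 ++ [2, 0, 0]) := hD
    have h2 := h1.sub (fun x => if x = 0 then [c] else w)
    rw [List.flatMap_append, flatMap_rep _ c rfl] at h2
    have e1 : ([0, 2, 0, 0] : List ℕ).flatMap (fun x => if x = 0 then [c] else w) =
        c :: (w ++ [c, c]) := by simp
    have e2 : ([2, 0, 0] : List ℕ).flatMap (fun x => if x = 0 then [c] else w) =
        w ++ [c, c] := by simp
    rw [e1, e2] at h2
    have h6 := ((RR.refl (β := β) p).append h2).append (RR.refl (β := β) q)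
    have e3 : p ++ c :: (w ++ [c, c]) ++ q = p ++ c :: (w ++ c :: c :: q) := by simp
    have e4 : p ++ (List.replicate (1 + 2 * n) c ++ (w ++ [c, c])) ++ q =
        p ++ (List.replicate (2 * n + 1) c ++ (w ++ c :: c :: q)) := by
      rw [Nat.add_comm 1 (2 * n)]
      simp
    rw [e3, e4] at h6
    exact h6
  · intro p q c i j hi hj hij
    exact (RR.refl p).append ((rep_mod hβ c i j hi hj hij).append (RR.refl q))

end Pool.Agent.MWNP.H19
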